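import Pool.Agent.H28.PL.Val

/-!
Project PL: the row AEV.
-/

set_option autoImplicit false

open Finset

namespace Pool.Agent.H28.PL

theorem pf_AEV (hs : T_SQR) (hw : T_WJ) (he : T_WEV) (ha : T_APE) : T_AEV := by
  intro m s K z hm hphi hK hKs hT
  have hm2 : 2 < m := by
    by_contra h
    push Not at h
    interval_cases m
    · simp at hphi; omega
    · simp at hphi; omega
    · simp at hphi; omega
  have hs0 : 0 < s := by omega
  obtain ⟨h, F, hval, hser, hF, hsq⟩ := hs m s hm hm2 hs0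
  have h1 := ha h s K F 3 hs0 hser
  have hphi2 : Nat.totient m / 2 = 2 * K := by omega
  rw [hphi2] at hsq
  rw [← hsq, hT, Real.sqrt_sq (by positivity)] at h1
  obtain ⟨c, hc, hW⟩ := he h s K hval
  have hw1 := hw.2.2.1 K hK
  have hw2 := hw.2.2.2.1 K
  -- the integer is a nonzero multiple of 2
  have hint : (2 : ℤ) ≤ |2 ^ (2 * K) * (z : ℤ) - WW h s (2 * K)| := by
    have hd : 2 ^ (2 * K) * (z : ℤ) - WW h s (2 * K) =
        2 ^ w K * (2 ^ (2 * K - w K) * z - c) := by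
      rw [hW, mul_sub, ← mul_assoc, ← pow_add]
      congr 3
      omega
    have hodd : Odd (2 ^ (2 * K - w K) * (z : ℤ) - c) := by
      have h2 : Even (2 ^ (2 * K - w K) * (z : ℤ)) := by
        have : 2 * K - w K ≠ 0 := by omega
        exact ((even_two : Even (2 : ℤ)).pow_of_ne_zero this).mul_right _
      exact h2.sub_odd hc
    rw [hd, abs_mul]
    have h3 : (1 : ℤ) ≤ |2 ^ (2 * K - w K) * (z : ℤ) - c| := by
      apply Int.one_le_abs
      intro h0
      rw [h0] at hodd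
      simp at hodd
    have h4 : (2 : ℤ) ≤ |2 ^ w K| := by
      rw [abs_of_pos (by positivity)]
      calc (2 : ℤ) = 2 ^ 1 := by norm_num
        _ ≤ 2 ^ w K := pow_le_pow_right₀ (by norm_num) hw1
    nlinarith
  have h2 : (2 : ℝ) ≤ |2 ^ (2 * K) * (z : ℝ) - (WW h s (2 * K) : ℝ)| := by
    exact_mod_cast hint
  have h3 := h2.trans h1
  -- the size of `al ^ s`
  have hal : (33 : ℝ) ≤ al ^ 4 := by
    have h5 : Real.sqrt 2 ^ 2 = 2 := Real.sq_sqrt (by norm_num)
    have h6 : (1.4 : ℝ) ≤ Real.sqrt 2 := Real.le_sqrt_of_sq_le (by norm_num)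
    have h7 : al ^ 4 = 17 + 12 * Real.sqrt 2 := by
      unfold al
      have : (1 + Real.sqrt 2) ^ 4 = 1 + 4 * Real.sqrt 2 + 6 * Real.sqrt 2 ^ 2 +
        4 * Real.sqrt 2 * Real.sqrt 2 ^ 2 + (Real.sqrt 2 ^ 2) ^ 2 := by ring
      rw [this, h5]
      ring
    rw [h7]
    linarith
  have hal1 : (1 : ℝ) ≤ al := by
    unfold al
    have := Real.sqrt_nonneg 2
    linarith
  have hx : (33 : ℝ) ^ K ≤ (al ^ s) ^ 2 := by
    calc (33 : ℝ) ^ K ≤ (al ^ 4) ^ K := pow_le_pow_left₀ (by norm_num) hal K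
      _ = (al ^ (2 * K)) ^ 2 := by rw [← pow_mul, ← pow_mul]; congr 1; ring
      _ ≤ (al ^ s) ^ 2 := by
        refine pow_le_pow_left₀ (by positivity) (pow_le_pow_right₀ hal1 hKs) 2
  have hx0 : (0 : ℝ) < (al ^ s) ^ 2 := lt_of_lt_of_le (by positivity) hx
  rw [le_div_iff₀ hx0] at h3
  have h8 : (2 : ℝ) ^ (3 * K + 1) = 2 * 8 ^ K := by
    rw [pow_succ, pow_mul]
    norm_num
    ring
  rw [h8] at h3
  have h9 : (33 : ℝ) ^ K ≤ 3 * 8 ^ K := by nlinarith
  have h10 : (4 : ℝ) ^ K * 8 ^ K ≤ 33 ^ K := by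
    rw [← mul_pow]
    exact pow_le_pow_left₀ (by norm_num) (by norm_num) K
  have h11 : (4 : ℝ) ≤ 4 ^ K := by
    calc (4 : ℝ) = 4 ^ 1 := by norm_num
      _ ≤ 4 ^ K := pow_le_pow_right₀ (by norm_num) hK
  have h12 : (0 : ℝ) < 8 ^ K := by positivity
  nlinarith

end Pool.Agent.H28.PL
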