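import Pool.Agent.H28.PL.DefsJ

/-!
Project PL: the row JQ.
-/

set_option autoImplicit false

open Finset

namespace Pool.Agent.H28.PL

/-- the symbol of a product -/
theorem jac_prod (S : Finset ℕ) (f : ℕ → ℕ) (b : ℕ) :
    jacobiSym ((∏ d ∈ S, f d : ℕ) : ℤ) b = ∏ d ∈ S, jacobiSym (f d : ℤ) b := by
  classical
  induction S using Finset.induction_on with
  | empty => simp
  | insert d S hd ih =>
    rw [Finset.prod_insert hd, Finset.prod_insert hd]
    push_cast
    rw [jacobiSym.mul_left, ← ih]
    push_cast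
    rfl

/-- divisors of `m q ^ a` which are multiples of `m` -/
theorem mult_iff (m q a d : ℕ) (hm : 0 < m) (hq : q.Prime) (hd : d ∣ m * q ^ a) (hmd : m ∣ d) :
    ∃ j ≤ a, d = m * q ^ j := by
  obtain ⟨e, rfl⟩ := hmd
  have he : e ∣ q ^ a := Nat.dvd_of_mul_dvd_mul_left hm hd
  obtain ⟨j, hj, rfl⟩ := (Nat.dvd_prime_pow hq).1 he
  exact ⟨j, hj, rfl⟩

theorem pf_JQ (hp : T_JP) (hl : T_JL) (hi : T_JI) (hk : T_JK) (hd : T_ADV) : T_JQ := by
  intro L hL c m q a hc hm hm1 hq hqo ha hne
  set b := L (2 ^ c * m) with hb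
  have hm0 : 0 < m := by omega
  have hb4 : b % 4 = 1 := hl L hL c m hc hm hm1
  have hbo : Odd b := Nat.odd_iff.2 (by omega)
  have hneg : jacobiSym (-1) b = 1 := by
    rw [jacobiSym.at_neg_one hbo, ZMod.χ₄_nat_one_mod_four hb4]
  have hsq : jacobiSym q b = 1 ∨ jacobiSym q b = -1 := by
    rcases jacobiSym.trichotomy (q : ℤ) b with h | h | h
    · exact absurd h hne
    · exact Or.inl h
    · exact Or.inr h
  -- the symbol of the ratio
  have hratio : ∀ a : ℕ, jacobiSym ((AA c (m * q ^ a) / AA c m : ℕ) : ℤ) b =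
      jacobiSym q b ^ a := by
    intro a
    have hqa : Odd (q ^ a) := hqo.pow
    have hbA : (b : ℤ) ∣ AA c m := by
      have : b ∣ AA c m := by
        rw [← hp L hL c m hm]
        exact Finset.dvd_prod_of_mem _ (Nat.mem_divisors_self m hm0.ne')
      exact_mod_cast this
    rw [← jacobiSym.pow_left]
    rcases hk c m (q ^ a) hm hqa with h | h
    · have h' := hbA.trans h
      have : ((AA c (m * q ^ a) / AA c m : ℕ) : ℤ) ≡ (q : ℤ) ^ a [ZMOD b] := by
        apply Int.ModEq.symm
        rw [Int.modEq_iff_dvd]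
        push_cast at h' ⊢
        exact h'
      exact jacobiSym.mod_left' this
    · have h' := hbA.trans h
      have : ((AA c (m * q ^ a) / AA c m : ℕ) : ℤ) ≡ -(q : ℤ) ^ a [ZMOD b] := by
        apply Int.ModEq.symm
        rw [Int.modEq_iff_dvd]
        push_cast at h' ⊢
        rw [sub_neg_eq_add]
        exact h'
      rw [jacobiSym.mod_left' this, show -(q : ℤ) ^ a = (-1) * (q : ℤ) ^ a by ring,
        jacobiSym.mul_left, hneg, one_mul]
  -- the product over the divisors
  have hprod : ∀ a : ℕ, AA c (m * q ^ a) / AA c m =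
      ∏ d ∈ (m * q ^ a).divisors \ m.divisors, L (2 ^ c * d) := by
    intro a
    have hodd : Odd (m * q ^ a) := hm.mul hqo.pow
    have h1 := hp L hL c (m * q ^ a) hodd
    have h2 := hp L hL c m hm
    have hsub : m.divisors ⊆ (m * q ^ a).divisors :=
      Nat.divisors_subset_of_dvd (Nat.mul_pos hm0 (pow_pos hq.pos a)).ne' (dvd_mul_right _ _)
    rw [← Finset.prod_sdiff hsub, h2] at h1
    have hpos : 0 < AA c m := by
      rcases Nat.eq_zero_or_pos (AA c m) with h | h
      · exfalso
        have hb0 : b ≠ 0 := by omega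
        have h3 : b ∣ AA c m := by
          rw [← h2]
          exact Finset.dvd_prod_of_mem _ (Nat.mem_divisors_self m hm0.ne')
        rw [← h2] at h
        obtain ⟨d, hd', hd0⟩ := Finset.prod_eq_zero_iff.1 h
        have hdo : Odd d := hm.of_dvd_nat (Nat.dvd_of_mem_divisors hd')
        rcases Nat.lt_or_ge 1 d with h1d | h1d
        · have := hl L hL c d hc hdo h1d
          omega
        · have hd1 : d = 1 := by
            have := Nat.pos_of_mem_divisors hd'
            omega
          rw [hd1] at hd0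
          have h5 := hp L hL c 1 odd_one
          rw [Nat.divisors_one, Finset.prod_singleton, hd0] at h5
          unfold AA at h5
          split_ifs at h5 with hc0
          · simp [pe] at h5
          · have key : ∀ n, 0 < ve n ∧ 0 < ve (n + 1) := by
              intro n
              induction n with
              | zero => exact ⟨by decide, by decide⟩
              | succ n ih =>
                refine ⟨ih.2, ?_⟩
                show 0 < 2 * ve (n + 1) + ve n
                omega
            have := (key (2 ^ (c - 1) * 1)).1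
            omega
      · exact h
    rw [← h1]
    exact Nat.mul_div_cancel _ hpos
  -- the symbols
  have hmain : ∀ a : ℕ, jacobiSym q b ^ a =
      ∏ j ∈ Finset.Icc 1 a, jacobiSym (L (2 ^ c * (m * q ^ j)) : ℤ) b := by
    intro a
    rw [← hratio a, hprod a, jac_prod]
    have hq1 := hq.one_lt
    have himg : ∏ d ∈ (Finset.Icc 1 a).image (fun j => m * q ^ j),
        jacobiSym (L (2 ^ c * d) : ℤ) b =
        ∏ j ∈ Finset.Icc 1 a, jacobiSym (L (2 ^ c * (m * q ^ j)) : ℤ) b := by
      rw [Finset.prod_image]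
      intro x _ y _ hxy
      exact Nat.pow_right_injective hq1 (Nat.eq_of_mul_eq_mul_left hm0 hxy)
    rw [← himg]
    symm
    apply Finset.prod_subset
    · intro d hd'
      obtain ⟨j, hj, rfl⟩ := Finset.mem_image.1 hd'
      rw [Finset.mem_Icc] at hj
      rw [Finset.mem_sdiff, Nat.mem_divisors, Nat.mem_divisors]
      refine ⟨⟨Nat.mul_dvd_mul_left m (pow_dvd_pow q hj.2),
        (Nat.mul_pos hm0 (pow_pos hq.pos a)).ne'⟩, ?_⟩
      rintro ⟨h, -⟩
      have h1 := Nat.le_of_dvd hm0 h
      have h2 : 1 < q ^ j := Nat.one_lt_pow (by omega) hq1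
      have h3 : m * 1 < m * q ^ j := Nat.mul_lt_mul_of_pos_left h2 hm0
      omega
    · intro d hd' hnd
      rw [Finset.mem_sdiff, Nat.mem_divisors, Nat.mem_divisors] at hd'
      obtain ⟨⟨hdm, -⟩, hndm⟩ := hd'
      have h1 : ¬ d ∣ m := fun h => hndm ⟨h, hm0.ne'⟩
      have h2 : ¬ m ∣ d := by
        intro h
        obtain ⟨j, hj, rfl⟩ := mult_iff m q a d hm0 hq hdm h
        apply hnd
        rw [Finset.mem_image]
        refine ⟨j, ?_, rfl⟩
        rw [Finset.mem_Icc]
        refine ⟨?_, hj⟩
        by_contra hj0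
        have : j = 0 := by omega
        rw [this, pow_zero, mul_one] at h1
        exact h1 dvd_rfl
      have hdo : Odd d := (hm.mul hqo.pow).of_dvd_nat hdm
      exact hi L hL c d m hc hdo hm h1 h2
  -- induction
  have hind : ∀ a : ℕ, 0 < a →
      jacobiSym (L (2 ^ c * (m * q ^ a)) : ℤ) b = jacobiSym q b := by
    intro a
    induction a using Nat.strong_induction_on with
    | _ a ih =>
      intro ha
      obtain ⟨k, rfl⟩ := Nat.exists_eq_succ_of_ne_zero ha.ne'
      have h1 := hmain (k + 1)
      rw [Finset.prod_Icc_succ_top (by omega)] at h1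
      have h2 : ∏ j ∈ Finset.Icc 1 k, jacobiSym (L (2 ^ c * (m * q ^ j)) : ℤ) b =
          jacobiSym q b ^ k := by
        rw [Finset.prod_congr rfl (g := fun _ => jacobiSym q b)]
        · rw [Finset.prod_const, Nat.card_Icc]
          congr 1
        · intro j hj
          rw [Finset.mem_Icc] at hj
          exact ih j (by omega) (by omega)
      rw [h2, pow_succ] at h1
      have h3 : jacobiSym q b ^ k ≠ 0 := pow_ne_zero _ hne
      exact (mul_left_cancel₀ h3 h1).symm
  exact hind a ha

end Pool.Agent.H28.PL
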