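import Pool.Agent.H28.PL.DefsJ

/-!
Project PL: the rows BIN, VEO, HSD, A2, JF.
-/

set_option autoImplicit false

open Finset

namespace Pool.Agent.H28.PL

theorem al_sq : al ^ 2 = 2 * al + 1 := by
  have h : Real.sqrt 2 ^ 2 = 2 := Real.sq_sqrt (by norm_num)
  unfold al
  nlinarith

theorem be_sq : be ^ 2 = 2 * be + 1 := by
  have h : Real.sqrt 2 ^ 2 = 2 := Real.sq_sqrt (by norm_num)
  unfold be
  nlinarith

theorem pf_BIN : T_BIN := by
  have key : ∀ n : ℕ, (2 * Real.sqrt 2 * (pe n : ℝ) = al ^ n - be ^ n ∧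
      (ve n : ℝ) = al ^ n + be ^ n) ∧ (2 * Real.sqrt 2 * (pe (n + 1) : ℝ) =
      al ^ (n + 1) - be ^ (n + 1) ∧ (ve (n + 1) : ℝ) = al ^ (n + 1) + be ^ (n + 1)) := by
    intro n
    induction n with
    | zero =>
      refine ⟨⟨by simp [pe], by simp [ve]; norm_num⟩, by simp [pe, al, be]; ring, ?_⟩
      simp [ve, al, be]
      norm_num
    | succ n ih =>
      obtain ⟨⟨a, b⟩, c, d⟩ := ih
      refine ⟨⟨c, d⟩, ?_, ?_⟩
      · show 2 * Real.sqrt 2 * ((2 * pe (n + 1) + pe n : ℕ) : ℝ) = _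
        have e1 : al ^ (n + 1 + 1) = al ^ n * al ^ 2 := by ring
        have e2 : be ^ (n + 1 + 1) = be ^ n * be ^ 2 := by ring
        rw [e1, e2, al_sq, be_sq]
        push_cast
        have : 2 * Real.sqrt 2 * (2 * (pe (n + 1) : ℝ) + pe n) =
          2 * (2 * Real.sqrt 2 * pe (n + 1)) + 2 * Real.sqrt 2 * pe n := by ring
        rw [this, a, c]
        ring
      · show ((2 * ve (n + 1) + ve n : ℕ) : ℝ) = _
        have e1 : al ^ (n + 1 + 1) = al ^ n * al ^ 2 := by ring
        have e2 : be ^ (n + 1 + 1) = be ^ n * be ^ 2 := by ring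
        rw [e1, e2, al_sq, be_sq]
        push_cast
        rw [b, d]
        ring
  exact fun n => (key n).1

theorem pf_VEO : T_VEO := by
  have key : ∀ n : ℕ, (∃ k : ℕ, ve n = 2 * (2 * k + 1)) ∧
      ∃ k : ℕ, ve (n + 1) = 2 * (2 * k + 1) := by
    intro n
    induction n with
    | zero => exact ⟨⟨0, rfl⟩, ⟨0, rfl⟩⟩
    | succ n ih =>
      obtain ⟨⟨a, ha⟩, b, hb⟩ := ih
      refine ⟨⟨b, hb⟩, ⟨a + 2 * b + 1, ?_⟩⟩
      show 2 * ve (n + 1) + ve n = _
      rw [ha, hb]
      ring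
  exact fun n => (key n).1

theorem pf_HSD : T_HSD := by
  intro τ d j hd hj
  unfold hs
  split_ifs with h
  · obtain ⟨k, rfl⟩ := h
    have hk : 0 < k := Nat.pos_of_mul_pos_left hj |> fun _ => by
      rcases Nat.eq_zero_or_pos k with h0 | h0
      · subst h0; simp at hj
      · exact h0
    rw [Nat.mul_div_cancel_left k (by omega)]
    have hev : (2 : ℤ) ∣ ca τ k := by
      unfold ca
      split_ifs with h1 h2
      · omega
      · exact ⟨-(catalan (k - 1) : ℤ), by ring⟩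
      · have := Nat.two_dvd_centralBinom_of_one_le hk
        exact_mod_cast this
    have h4 : (4 : ℤ) ^ (d * k - k) = 2 ^ (2 * (d * k - k)) := by
      rw [pow_mul]
      norm_num
    rw [h4, pow_succ']
    refine mul_dvd_mul hev (pow_dvd_pow 2 ?_)
    have : 2 * k ≤ d * k := Nat.mul_le_mul_right k hd
    omega
  · exact dvd_zero _

theorem pe_pos (n : ℕ) : 0 < pe (n + 1) := by
  induction n using Nat.strong_induction_on with
  | _ n ih =>
    rcases n with _ | n
    · decide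
    · have := ih n (by omega)
      show 0 < 2 * pe (n + 1) + pe n
      omega

theorem TT2 (s : ℕ) (hs : 0 < s) : TT 2 s = ve s := by
  have hd : (2 : ℕ).divisors = {1, 2} := by decide
  unfold TT
  rw [hd, Finset.prod_pair (by norm_num)]
  have h2 := ArithmeticFunction.moebius_apply_prime Nat.prime_two
  have e1 : (2 : ℕ) / 1 = 2 := by norm_num
  have e2 : (2 : ℕ) / 2 = 1 := by norm_num
  rw [e1, e2, h2, ArithmeticFunction.moebius_apply_one]
  have hp : 0 < pe s := by
    obtain ⟨k, rfl⟩ := Nat.exists_eq_succ_of_ne_zero hs.ne'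
    exact pe_pos k
  have hp' : (pe (s * 1) : ℝ) ≠ 0 := by
    rw [mul_one]
    exact_mod_cast hp.ne'
  have b1 := (pf_BIN s).1
  have b2 := (pf_BIN s).2
  have b3 := (pf_BIN (s * 2)).1
  have key : (pe (s * 2) : ℝ) = pe s * ve s := by
    have h2 : (2 * Real.sqrt 2 : ℝ) ≠ 0 := by positivity
    have : 2 * Real.sqrt 2 * (pe (s * 2) : ℝ) = 2 * Real.sqrt 2 * (pe s * ve s) := by
      rw [b3, ← mul_assoc, b1, b2]
      ring
    exact mul_left_cancel₀ h2 this
  rw [key]
  rw [mul_one] at hp' ⊢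
  simp only [zpow_neg, zpow_one]
  field_simp

theorem pf_A2 : T_A2 := by
  intro s z hs h
  rw [TT2 s hs] at h
  have h' : ve s = z ^ 2 := by exact_mod_cast h
  obtain ⟨k, hk⟩ := pf_VEO s
  rw [hk] at h'
  have : (z ^ 2) % 4 = 0 ∨ (z ^ 2) % 4 = 1 := by
    rcases Nat.even_or_odd' z with ⟨c, rfl | rfl⟩
    · left
      have : (2 * c) ^ 2 = 4 * c ^ 2 := by ring
      omega
    · right
      have : (2 * c + 1) ^ 2 = 4 * (c ^ 2 + c) + 1 := by ring
      omega
  omega

theorem pf_J (h : T_JQ) : T_J := by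
  intro L hL c m q a hc hm hm1 hq hqo ha hj hsq
  have := h L hL c m q a hc hm hm1 hq hqo ha (by rw [hj]; decide)
  rw [hj] at this
  obtain ⟨z, hz⟩ := hsq
  rw [hz] at this
  push_cast at this
  rw [jacobiSym.mul_left] at this
  have h2 := mul_self_nonneg (jacobiSym (z : ℤ) (L (2 ^ c * m)))
  rw [this] at h2
  norm_num at h2

end Pool.Agent.H28.PL
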