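import Pool.Agent.H28.PL.FinJ
import Pool.Agent.H28.PL.Jq1
import Pool.Agent.H67.PL.Rec
import Pool.Agent.H11.PL.JRV
import Pool.Agent.H94.PL.JP
import Pool.Agent.H79.PL.JL
import Pool.Agent.H74.PL.JI
import Pool.Agent.H68.PL.JK

/-!
Project PL: assembly of Theorem J (first part).
-/

set_option autoImplicit false

namespace Pool.Agent.H28.PL.AllJ

open Pool.Agent.H28.PL

theorem j_ADV : T_ADV := Pool.Agent.H67.PL.pf_ADV
theorem j_EUC : T_EUC := Pool.Agent.H67.PL.pf_EUC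
theorem j_JRU : T_JRU := Pool.Agent.H67.PL.pf_JRU j_ADV
theorem j_JRV : T_JRV := Pool.Agent.H11.PL.pf_JRV j_ADV
theorem j_JP : T_JP := Pool.Agent.H94.PL.pf_JP
theorem j_JL : T_JL := Pool.Agent.H79.PL.pf_JL j_JP j_JRU j_JRV
theorem j_JI : T_JI := Pool.Agent.H74.PL.pf_JI j_EUC j_ADV j_JRU j_JRV j_JP
theorem j_JK : T_JK := Pool.Agent.H68.PL.pf_JK j_ADV
theorem j_JQ : T_JQ := pf_JQ j_JP j_JL j_JI j_JK j_ADV
theorem j_J : T_J := pf_J j_JQ

end Pool.Agent.H28.PL.AllJ
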