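import Pool.Agent.H28.PL.AllJ
import Pool.Agent.H41.PL.JI1
import Pool.Agent.H68.PL.JL1
import Pool.Agent.H32.PLP.EU1
import Pool.Agent.H32.PLP.JR1
import Pool.Agent.H32.PLP.PPD

/-!
Project PL: assembly of Theorem J.
-/

set_option autoImplicit false

namespace Pool.Agent.H28.PL.AllK

open Pool.Agent.H28.PL

theorem j_PPD : T_PPD := Pool.Agent.H32.PLP.pf_PPD
theorem j_EU1 : T_EU1 := Pool.Agent.H32.PLP.pf_EU1
theorem j_JR1 : T_JR1 := Pool.Agent.H32.PLP.pf_JR1 AllJ.j_ADV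
theorem j_JL1 : T_JL1 := Pool.Agent.H68.PL.pf_JL1 AllJ.j_JP j_JR1 j_PPD
theorem j_JI1 : T_JI1 := Pool.Agent.H41.PL.pf_JI1 j_EU1 AllJ.j_ADV j_JR1 AllJ.j_JP j_PPD
theorem j_JQ1 : T_JQ1 := pf_JQ1 AllJ.j_JP j_JL1 j_JI1 AllJ.j_JK
theorem j_JJ : T_JJ := JJ_of AllJ.j_J j_JQ1

end Pool.Agent.H28.PL.AllK
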