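import Pool.Agent.H28.PL.Val

/-!
Project PL: the rows CON, PRO.
-/

set_option autoImplicit false

open Finset

namespace Pool.Agent.H28.PL

theorem pf_CON : T_CON := by
  intro f g t F G A B ht hA hB hf hg
  obtain ⟨f0, fs, fn, fb⟩ := hf
  obtain ⟨g0, gs, gn, gb⟩ := hg
  have ht8 : |t / 4| ≤ 1 / 8 := by
    rw [abs_div, abs_of_pos (by norm_num : (0 : ℝ) < 4)]
    linarith
  have dom : ∀ h : ℕ → ℤ, Summable (fun j => |(h j : ℝ)| / 8 ^ j) →
      Summable (fun j => ‖(h j : ℝ) * (t / 4) ^ j‖) := by
    intro h hh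
    refine hh.of_nonneg_of_le (fun j => norm_nonneg _) (fun j => ?_)
    rw [norm_mul, norm_pow, Real.norm_eq_abs, Real.norm_eq_abs, div_eq_mul_inv |(h j : ℝ)|]
    refine mul_le_mul_of_nonneg_left ?_ (abs_nonneg _)
    rw [← inv_pow]
    refine pow_le_pow_left₀ (abs_nonneg _) ?_ _
    linarith
  have fd := dom f fn
  have gd := dom g gn
  have e1 : ∀ j, ((∑ p ∈ antidiagonal j, f p.1 * g p.2 : ℤ) : ℝ) * (t / 4) ^ j =
      ∑ p ∈ antidiagonal j, ((f p.1 : ℝ) * (t / 4) ^ p.1) * ((g p.2 : ℝ) * (t / 4) ^ p.2) := by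
    intro j
    push_cast
    rw [Finset.sum_mul]
    refine Finset.sum_congr rfl fun p hp => ?_
    rw [HasAntidiagonal.mem_antidiagonal] at hp
    rw [← hp, pow_add]
    ring
  refine ⟨by simp [f0, g0], ?_, ?_, ?_⟩
  · simp only [e1]
    have h1 := summable_norm_sum_mul_antidiagonal_of_summable_norm fd gd
    have h2 := tsum_mul_tsum_eq_tsum_sum_antidiagonal_of_summable_norm fd gd
    rw [fs.tsum_eq, gs.tsum_eq] at h2
    rw [h2]
    exact h1.of_norm.hasSum
  · have fn' : Summable (fun j => ‖|(f j : ℝ)| / 8 ^ j‖) := by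
      refine fn.congr fun j => ?_
      rw [Real.norm_of_nonneg (by positivity)]
    have gn' : Summable (fun j => ‖|(g j : ℝ)| / 8 ^ j‖) := by
      refine gn.congr fun j => ?_
      rw [Real.norm_of_nonneg (by positivity)]
    have h1 := summable_norm_sum_mul_antidiagonal_of_summable_norm fn' gn'
    refine h1.of_nonneg_of_le (fun j => by positivity) (fun j => ?_)
    rw [Real.norm_of_nonneg (Finset.sum_nonneg fun p _ => by positivity)]
    push_cast
    rw [div_le_iff₀ (by positivity), Finset.sum_mul]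
    refine (Finset.abs_sum_le_sum_abs _ _).trans (Finset.sum_le_sum fun p hp => ?_)
    rw [HasAntidiagonal.mem_antidiagonal] at hp
    rw [← hp, pow_add, abs_mul]
    apply le_of_eq
    field_simp
  · have fn' : Summable (fun j => ‖|(f j : ℝ)| / 8 ^ j‖) := by
      refine fn.congr fun j => ?_
      rw [Real.norm_of_nonneg (by positivity)]
    have gn' : Summable (fun j => ‖|(g j : ℝ)| / 8 ^ j‖) := by
      refine gn.congr fun j => ?_
      rw [Real.norm_of_nonneg (by positivity)]
    have h1 := summable_norm_sum_mul_antidiagonal_of_summable_norm fn' gn'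
    have h2 := tsum_mul_tsum_eq_tsum_sum_antidiagonal_of_summable_norm fn' gn'
    have h3 : ∀ j, |((∑ p ∈ antidiagonal j, f p.1 * g p.2 : ℤ) : ℝ)| / 8 ^ j ≤
        ∑ p ∈ antidiagonal j, (|(f p.1 : ℝ)| / 8 ^ p.1) * (|(g p.2 : ℝ)| / 8 ^ p.2) := by
      intro j
      push_cast
      rw [div_le_iff₀ (by positivity), Finset.sum_mul]
      refine (Finset.abs_sum_le_sum_abs _ _).trans (Finset.sum_le_sum fun p hp => ?_)
      rw [HasAntidiagonal.mem_antidiagonal] at hp
      rw [← hp, pow_add, abs_mul]
      apply le_of_eq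
      field_simp
    have h4 : Summable (fun j => ∑ p ∈ antidiagonal j,
        (|(f p.1 : ℝ)| / 8 ^ p.1) * (|(g p.2 : ℝ)| / 8 ^ p.2)) := h1.of_norm
    have h5 : Summable (fun j => |((∑ p ∈ antidiagonal j, f p.1 * g p.2 : ℤ) : ℝ)| / 8 ^ j) :=
      h4.of_nonneg_of_le (fun j => by positivity) h3
    refine (h5.tsum_le_tsum h3 h4).trans ?_
    rw [← h2]
    exact mul_le_mul fb gb (tsum_nonneg fun j => by positivity) hA

theorem pf_PRO (hs : T_HSS) (hd : T_HSD) (hc : T_CON) : T_PRO := by
  intro S τ t hS ht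
  induction S using Finset.induction_on with
  | empty =>
    refine ⟨fun j => if j = 0 then 1 else 0, fun j hj => ?_, ?_, ?_, ?_, ?_⟩
    · simp [hj.ne']
    · simp
    · have : (fun j : ℕ => (((if j = 0 then 1 else 0 : ℤ)) : ℝ) * (t / 4) ^ j) =
          fun j => if j = 0 then 1 else 0 := by
        funext j
        rcases j with _ | j <;> simp
      rw [this]
      simpa using hasSum_ite_eq (0 : ℕ) (1 : ℝ)
    · refine summable_of_ne_finset_zero (s := {0}) fun j hj => ?_
      rw [Finset.mem_singleton] at hj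
      simp [hj]
    · rw [tsum_eq_single 0 (fun j hj => by simp [hj])]
      simp
  | insert d S hdS ih =>
    obtain ⟨E, hE, hser⟩ := ih fun x hx => hS x (Finset.mem_insert_of_mem hx)
    have hd2 : 2 ≤ d := hS d (Finset.mem_insert_self d S)
    have h1 := hs (τ d) d t (by omega) ht
    refine ⟨fun j => ∑ p ∈ antidiagonal j, Pool.Agent.H28.PL.hs (τ d) d p.1 * E p.2, ?_, ?_⟩
    rotate_left
    · rw [Finset.prod_insert hdS, Finset.prod_insert hdS]
      exact hc _ _ t _ _ _ _ ht (by positivity)
        (Finset.prod_nonneg fun i _ => by positivity) h1 hser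
    · intro j hj
      show (2 : ℤ) ^ (j + 1) ∣ ∑ p ∈ antidiagonal j, Pool.Agent.H28.PL.hs (τ d) d p.1 * E p.2
      apply Finset.dvd_sum
      rintro ⟨a, b⟩ hab
      rw [HasAntidiagonal.mem_antidiagonal] at hab
      simp only at hab ⊢
      rcases Nat.eq_zero_or_pos a with ha | ha
      · rw [ha, h1.1, one_mul]
        have : b = j := by omega
        rw [this]
        exact hE j hj
      · rcases Nat.eq_zero_or_pos b with hb | hb
        · rw [hb, hser.1, mul_one]
          have : a = j := by omega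
          rw [this]
          exact hd _ _ _ hd2 hj
        · have h2 := hd (τ d) d a hd2 ha
          have h3 := hE b hb
          have h4 := mul_dvd_mul h2 h3
          rw [← pow_add] at h4
          exact (pow_dvd_pow 2 (by omega)).trans h4

end Pool.Agent.H28.PL
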