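import Pool.Agent.H28.PL.Defs

/-!
Project PL: the rows WJ, CAB, VAL, WEV, WOD.
-/

set_option autoImplicit false

open Finset

namespace Pool.Agent.H28.PL

theorem cb_cat (j : ℕ) : Nat.centralBinom (j + 1) = (2 * j + 1) * (2 * catalan j) := by
  have h1 := Nat.succ_mul_centralBinom_succ j
  have h2 := succ_mul_catalan_eq_centralBinom j
  have h3 : (j + 1) * Nat.centralBinom (j + 1) = (j + 1) * ((2 * j + 1) * (2 * catalan j)) := by
    rw [h1, ← h2]
    ring
  exact Nat.eq_of_mul_eq_mul_left (by omega) h3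

theorem w_succ (k : ℕ) : padicValNat 2 (k + 1) + w (k + 1) = 1 + w k := by
  have h1 := Nat.succ_mul_centralBinom_succ k
  have h2 : padicValNat 2 ((k + 1) * Nat.centralBinom (k + 1)) =
      padicValNat 2 (2 * (2 * k + 1) * Nat.centralBinom k) := by rw [h1]
  rw [padicValNat.mul (by omega) (Nat.centralBinom_ne_zero _),
    padicValNat.mul (by omega) (Nat.centralBinom_ne_zero _),
    padicValNat.mul (by omega) (by omega), padicValNat.self (by norm_num)] at h2
  have h3 : padicValNat 2 (2 * k + 1) = 0 := by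
    apply padicValNat.eq_zero_of_not_dvd
    omega
  rw [h3] at h2
  unfold w
  omega

theorem cb_odd (k : ℕ) : ∃ c : ℕ, Odd c ∧ Nat.centralBinom k = 2 ^ w k * c := by
  obtain ⟨c, hc⟩ : 2 ^ w k ∣ Nat.centralBinom k := pow_padicValNat_dvd
  refine ⟨c, ?_, hc⟩
  by_contra h
  rw [Nat.not_odd_iff_even] at h
  obtain ⟨d, hd⟩ := h.two_dvd
  have : 2 ^ (w k + 1) ∣ Nat.centralBinom k := ⟨d, by rw [hc, hd]; ring⟩
  exact pow_succ_padicValNat_not_dvd (Nat.centralBinom_ne_zero k) this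

theorem pf_WJ : T_WJ := by
  refine ⟨by simp [w], fun k => ?_, fun k hk => ?_, fun k => ?_, fun τ k => ?_⟩
  · have := w_succ k
    omega
  · unfold w
    have := Nat.two_dvd_centralBinom_of_one_le hk
    exact one_le_padicValNat_of_dvd (Nat.centralBinom_ne_zero k) this
  · induction k with
    | zero => simp [w]
    | succ k ih =>
      have := w_succ k
      omega
  · obtain ⟨c, hc, hk⟩ := cb_odd k
    unfold ca
    cases τ with
    | false =>
      simp only [Bool.false_eq_true, if_false]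
      exact ⟨c, by exact_mod_cast hc, by rw [hk]; push_cast; ring⟩
    | true =>
      simp only [if_true]
      rcases k with _ | j
      · exact ⟨1, odd_one, by simp [w]⟩
      · simp only [Nat.succ_ne_zero, if_false, Nat.add_sub_cancel]
        rw [cb_cat] at hk
        have hcop : Nat.Coprime (2 ^ w (j + 1)) (2 * j + 1) := by
          apply Nat.Coprime.pow_left
          rw [Nat.coprime_two_left]
          exact ⟨j, by ring⟩
        have hd : 2 ^ w (j + 1) ∣ 2 * catalan j := by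
          have : 2 ^ w (j + 1) ∣ (2 * j + 1) * (2 * catalan j) := ⟨c, hk⟩
          exact hcop.dvd_of_dvd_mul_left this
        obtain ⟨d, hd⟩ := hd
        have hdo : Odd d := by
          rw [hd] at hk
          have h3 : 2 ^ w (j + 1) * ((2 * j + 1) * d) = 2 ^ w (j + 1) * c := by
            rw [← hk]; ring
          have h4 : (2 * j + 1) * d = c := Nat.eq_of_mul_eq_mul_left (by positivity) h3
          rw [← h4] at hc
          exact (Nat.odd_mul.1 hc).2
        refine ⟨-(d : ℤ), ?_, ?_⟩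
        · rw [odd_neg]
          exact_mod_cast hdo
        · have : (2 * (catalan j : ℤ)) = 2 ^ w (j + 1) * d := by exact_mod_cast hd
          linarith

theorem cb_le (k : ℕ) : 2 * Nat.centralBinom (k + 1) ≤ 4 ^ (k + 1) := by
  induction k with
  | zero => simp [Nat.centralBinom]
  | succ k ih =>
    have h1 := Nat.succ_mul_centralBinom_succ (k + 1)
    have h2 : (k + 1 + 1) * (2 * Nat.centralBinom (k + 1 + 1)) ≤ (k + 1 + 1) * 4 ^ (k + 1 + 1) := by
      calc (k + 1 + 1) * (2 * Nat.centralBinom (k + 1 + 1))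
          = 2 * ((k + 1 + 1) * Nat.centralBinom (k + 1 + 1)) := by ring
        _ = 2 * (2 * (k + 1) + 1) * (2 * Nat.centralBinom (k + 1)) := by rw [h1]; ring
        _ ≤ 2 * (2 * (k + 1) + 1) * 4 ^ (k + 1) := Nat.mul_le_mul_left _ ih
        _ ≤ (4 * (k + 1 + 1)) * 4 ^ (k + 1) := Nat.mul_le_mul_right _ (by omega)
        _ = (k + 1 + 1) * 4 ^ (k + 1 + 1) := by ring
    exact Nat.le_of_mul_le_mul_left h2 (by omega)

theorem pf_CAB : T_CAB := by
  intro τ k hk
  obtain ⟨j, rfl⟩ := Nat.exists_eq_succ_of_ne_zero hk.ne'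
  have h1 := cb_le j
  unfold ca
  cases τ with
  | false =>
    simp only [Bool.false_eq_true, if_false]
    rw [abs_of_nonneg (by positivity)]
    exact_mod_cast h1
  | true =>
    simp only [if_true, Nat.succ_eq_add_one, Nat.succ_ne_zero, if_false, Nat.add_sub_cancel]
    rw [cb_cat] at h1
    have h2 : 2 * (2 * catalan j) ≤ 4 ^ (j + 1) := by
      refine le_trans ?_ h1
      refine Nat.mul_le_mul_left _ ?_
      exact Nat.le_mul_of_pos_left _ (by omega)
    have h3 : |(-2 * (catalan j : ℤ))| = 2 * catalan j := by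
      rw [neg_mul, abs_neg, abs_of_nonneg (by positivity)]
    rw [h3]
    exact_mod_cast h2

theorem w_add (hw : T_WJ) (i k : ℕ) : w (i + k) ≤ w i + k := by
  induction k with
  | zero => simp
  | succ k ih =>
    have := hw.2.1 (i + k)
    rw [← add_assoc]
    omega

theorem pf_VAL (hw : T_WJ) : T_VAL := by
  intro τ E hE0 hE j
  obtain ⟨c, hc, hcj⟩ := hw.2.2.2.2 τ j
  have h0 : (j, 0) ∈ antidiagonal j := by simp
  rw [← Finset.add_sum_erase _ _ h0]
  have hrest : (2 : ℤ) ^ (w j + 1) ∣ ∑ p ∈ (antidiagonal j).erase (j, 0),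
      ca τ p.1 * E p.2 := by
    apply Finset.dvd_sum
    rintro ⟨i, k⟩ hp
    rw [Finset.mem_erase, HasAntidiagonal.mem_antidiagonal] at hp
    obtain ⟨hne, hik⟩ := hp
    simp only at hik ⊢
    have hk : 0 < k := by
      rcases Nat.eq_zero_or_pos k with h | h
      · exfalso; apply hne; rw [h]; congr 1; omega
      · exact h
    obtain ⟨e, -, he⟩ := hw.2.2.2.2 τ i
    have hEk := hE k hk
    have h1 : w j ≤ w i + k := by
      rw [← hik]
      exact w_add hw i k
    have h2 : (2 : ℤ) ^ (w i + (k + 1)) ∣ ca τ i * E k := by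
      rw [pow_add]
      exact mul_dvd_mul ⟨e, he⟩ hEk
    exact (pow_dvd_pow 2 (by omega)).trans h2
  obtain ⟨f, hf⟩ := hrest
  refine ⟨c + 2 * f, ?_, ?_⟩
  · exact hc.add_even ⟨f, by ring⟩
  · simp only
    rw [hf, hcj, hE0]
    ring

theorem WW_split (hw : T_WJ) (hv : T_VEO) (h : ℕ → ℤ) (s K e a : ℕ)
    (hh : ∀ j, ∃ c : ℤ, Odd c ∧ h j = 2 ^ w j * c) (j : ℕ) (hj : j < K)
    (ha : a + K ≤ 2 * K + e - 2 * j + j) :
    (2 : ℤ) ^ (w K + a + 1) ∣
      2 ^ (2 * K + e - 2 * j) * h j * (-1) ^ (s * j) * (ve (s * (2 * K + e - 2 * j)) : ℤ) := by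
  obtain ⟨c, -, hc⟩ := hh j
  obtain ⟨k, hk⟩ := hv (s * (2 * K + e - 2 * j))
  have h1 : w K ≤ w j + (K - j) := by
    have := w_add hw j (K - j)
    rwa [Nat.add_sub_cancel' hj.le] at this
  rw [hc, hk]
  have h2 : (2 : ℤ) ^ (2 * K + e - 2 * j + w j + 1) ∣
      2 ^ (2 * K + e - 2 * j) * (2 ^ w j * c) * (-1) ^ (s * j) *
        ((2 * (2 * k + 1) : ℕ) : ℤ) := by
    refine ⟨c * (-1) ^ (s * j) * (2 * k + 1), ?_⟩
    push_cast
    ring
  exact (pow_dvd_pow 2 (by omega)).trans h2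

theorem pf_WEV (hw : T_WJ) (hv : T_VEO) : T_WEV := by
  intro h s K hh
  unfold WW
  rw [if_pos (even_two_mul K), Nat.mul_div_cancel_left K (by norm_num)]
  have hd : (2 : ℤ) ^ (w K + 1) ∣ ∑ j ∈ (range (2 * K + 1)).filter (fun j => 2 * j < 2 * K),
      2 ^ (2 * K - 2 * j) * h j * (-1) ^ (s * j) * (ve (s * (2 * K - 2 * j)) : ℤ) := by
    apply Finset.dvd_sum
    intro j hj
    have hj' : j < K := by
      have := (Finset.mem_filter.1 hj).2
      omega
    have := WW_split hw hv h s K 0 0 hh j hj' (by omega)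
    simpa using this
  obtain ⟨f, hf⟩ := hd
  obtain ⟨c, hc, hcK⟩ := hh K
  rw [hf, hcK]
  rcases neg_one_pow_eq_or ℤ (s * K) with h1 | h1
  · rw [h1]
    exact ⟨c + 2 * f, hc.add_even ⟨f, by ring⟩, by ring⟩
  · rw [h1]
    exact ⟨-c + 2 * f, hc.neg.add_even ⟨f, by ring⟩, by ring⟩

theorem pf_WOD (hw : T_WJ) (hv : T_VEO) : T_WOD := by
  intro h s K hh
  unfold WW
  have hne : ¬ Even (2 * K + 1) := by
    rw [Nat.not_even_iff_odd]
    exact ⟨K, rfl⟩
  rw [if_neg hne, add_zero]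
  have hmem : K ∈ (range (2 * K + 1 + 1)).filter (fun j => 2 * j < 2 * K + 1) := by
    rw [Finset.mem_filter, Finset.mem_range]
    omega
  rw [← Finset.add_sum_erase _ _ hmem]
  have hd : (2 : ℤ) ^ (w K + 2 + 1) ∣
      ∑ j ∈ ((range (2 * K + 1 + 1)).filter (fun j => 2 * j < 2 * K + 1)).erase K,
      2 ^ (2 * K + 1 - 2 * j) * h j * (-1) ^ (s * j) * (ve (s * (2 * K + 1 - 2 * j)) : ℤ) := by
    apply Finset.dvd_sum
    intro j hj
    have hj' : j < K := by
      rw [Finset.mem_erase] at hj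
      have := (Finset.mem_filter.1 hj.2).2
      omega
    exact WW_split hw hv h s K 1 2 hh j hj' (by omega)
  obtain ⟨f, hf⟩ := hd
  obtain ⟨c, hc, hcK⟩ := hh K
  obtain ⟨k, hk⟩ := hv (s * (2 * K + 1 - 2 * K))
  rw [hf, hcK, hk]
  have e1 : 2 * K + 1 - 2 * K = 1 := by omega
  rw [e1]
  have ho : Odd (c * (2 * (k : ℤ) + 1)) := hc.mul ⟨k, rfl⟩
  rcases neg_one_pow_eq_or ℤ (s * K) with h1 | h1
  · rw [h1]
    refine ⟨c * (2 * k + 1) + 2 * f, ho.add_even ⟨f, by ring⟩, ?_⟩
    push_cast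
    ring
  · rw [h1]
    refine ⟨-(c * (2 * k + 1)) + 2 * f, ho.neg.add_even ⟨f, by ring⟩, ?_⟩
    push_cast
    ring

end Pool.Agent.H28.PL
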