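import Pool.Agent.H28.PL.FIN
import Pool.Agent.H28.PL.Easy
import Pool.Agent.H28.PL.Val
import Pool.Agent.H28.PL.Conv
import Pool.Agent.H28.PL.Aev
import Pool.Agent.H67.PL.Mob
import Pool.Agent.H33.PL.HSS
import Pool.Agent.H68.PL.SQR
import Pool.Agent.H68.PL.A714
import Pool.Agent.H13.PL.APE
import Pool.Agent.H94.PL.APO
import Pool.Agent.H79.PL.AOD
import Pool.Agent.H11.PL.A36
import Pool.Agent.H11.PL.PHI

/-!
Project PL: assembly of Theorems R and G.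
-/

set_option autoImplicit false

namespace Pool.Agent.H28.PL.AllR

open Pool.Agent.H28.PL

theorem r_MOB : T_MOB := Pool.Agent.H67.PL.pf_MOB
theorem r_MOQ : T_MOQ := Pool.Agent.H67.PL.pf_MOQ
theorem r_TFO : T_TFO := Pool.Agent.H67.PL.pf_TFO pf_BIN
theorem r_SQR (c : T_CAT) : T_SQR :=
  Pool.Agent.H68.PL.pf_SQR r_TFO (Pool.Agent.H33.PL.pf_HSS c pf_CAB)
    (pf_PRO (Pool.Agent.H33.PL.pf_HSS c pf_CAB) pf_HSD pf_CON) (pf_VAL pf_WJ) pf_CON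
theorem r_AEV (c : T_CAT) : T_AEV :=
  pf_AEV (r_SQR c) pf_WJ (pf_WEV pf_WJ pf_VEO) (Pool.Agent.H13.PL.pf_APE pf_BIN)
theorem r_AOD (c : T_CAT) : T_AOD :=
  Pool.Agent.H79.PL.pf_AOD (r_SQR c) pf_WJ (pf_WOD pf_WJ pf_VEO) (Pool.Agent.H94.PL.pf_APO pf_BIN)
theorem r_A36 : T_A36 := Pool.Agent.H11.PL.pf_A36 pf_BIN
theorem r_A714 : T_A714 := Pool.Agent.H68.PL.pf_A714 pf_BIN
theorem r_A2 : T_A2 := pf_A2
theorem r_PHI : T_PHI := Pool.Agent.H11.PL.pf_PHI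

theorem r_R (c : T_CAT) : T_R := R_of r_MOB r_A2 r_A36 r_A714 (r_AEV c) (r_AOD c) r_PHI
theorem r_G (c : T_CAT) : T_G :=
  G_of r_MOB r_MOQ r_A2 r_A36 r_A714 (r_AEV c) (r_AOD c) r_PHI

end Pool.Agent.H28.PL.AllR
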