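import Pool.Agent.H28.PL.Val

/-!
Project PL: the row CAT.
-/

set_option autoImplicit false

open Finset

namespace Pool.Agent.H28.PL

theorem cb_rec (k : ℕ) : (Nat.centralBinom (k + 1) : ℝ) =
    4 * Nat.centralBinom k - 2 * catalan k := by
  have h1 : ((k + 1) * catalan k : ℕ) = Nat.centralBinom k := succ_mul_catalan_eq_centralBinom k
  have h2 := cb_cat k
  rw [h2, ← h1]
  push_cast
  ring

theorem pf_CAT (hb : T_CAB) : T_CAT := by
  intro τ t ht
  set u : ℝ := t / 4 with hu
  have hu8 : |u| ≤ 1 / 8 := by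
    rw [hu, abs_div, abs_of_pos (by norm_num : (0 : ℝ) < 4)]
    linarith
  have h4u : 4 * |u| ≤ 1 / 2 := by linarith
  -- bounds
  have hbd : ∀ (τ : Bool) (k : ℕ), |(ca τ (k + 1) : ℝ)| * |u| ^ (k + 1) ≤
      1 / 2 * (1 / 2) ^ (k + 1) := by
    intro τ k
    have h1 := hb τ (k + 1) (by omega)
    have h2 : 2 * |(ca τ (k + 1) : ℝ)| ≤ 4 ^ (k + 1) := by exact_mod_cast h1
    calc |(ca τ (k + 1) : ℝ)| * |u| ^ (k + 1) ≤ (1 / 2 * 4 ^ (k + 1)) * |u| ^ (k + 1) :=
          mul_le_mul_of_nonneg_right (by linarith) (by positivity)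
      _ = 1 / 2 * (4 * |u|) ^ (k + 1) := by rw [mul_pow]; ring
      _ ≤ 1 / 2 * (1 / 2) ^ (k + 1) :=
          mul_le_mul_of_nonneg_left (pow_le_pow_left₀ (by positivity) h4u _) (by norm_num)
  have hgeo : Summable (fun k : ℕ => (1 / 2 : ℝ) * (1 / 2) ^ (k + 1)) := by
    have := (summable_geometric_of_lt_one (by norm_num : (0 : ℝ) ≤ 1 / 2) (by norm_num)).mul_left
      (1 / 4 : ℝ)
    refine this.congr fun k => ?_
    rw [pow_succ]
    ring
  have hgeos : ∑' k : ℕ, (1 / 2 : ℝ) * (1 / 2) ^ (k + 1) = 1 / 2 := by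
    have h1 : ∀ k : ℕ, (1 / 2 : ℝ) * (1 / 2) ^ (k + 1) = 1 / 4 * (1 / 2) ^ k := by
      intro k
      rw [pow_succ]
      ring
    simp_rw [h1]
    rw [tsum_mul_left, tsum_geometric_two]
    norm_num
  -- Catalan series
  have ccat : ∀ k, (ca true (k + 1) : ℝ) = -2 * catalan k := by
    intro k
    unfold ca
    simp
  have hcs : Summable (fun k : ℕ => ‖(catalan k : ℝ) * u ^ k‖) := by
    have h1 : Summable (fun k : ℕ => (2 : ℝ) * (1 / 2) ^ k) :=
      (summable_geometric_of_lt_one (by norm_num : (0 : ℝ) ≤ 1 / 2) (by norm_num)).mul_left _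
    refine h1.of_nonneg_of_le (fun k => norm_nonneg _) (fun k => ?_)
    rw [norm_mul, norm_pow, Real.norm_eq_abs, Real.norm_eq_abs]
    have h2 := hb true (k + 1) (by omega)
    have h3 : 2 * |(ca true (k + 1) : ℝ)| ≤ 4 ^ (k + 1) := by exact_mod_cast h2
    rw [ccat, abs_mul, abs_neg, abs_of_pos (by norm_num : (0 : ℝ) < 2)] at h3
    calc |(catalan k : ℝ)| * |u| ^ k ≤ 4 ^ k * |u| ^ k := by
          refine mul_le_mul_of_nonneg_right ?_ (by positivity)
          rw [pow_succ] at h3
          linarith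
      _ = (4 * |u|) ^ k := by rw [mul_pow]
      _ ≤ (1 / 2) ^ k := pow_le_pow_left₀ (by positivity) h4u _
      _ ≤ 2 * (1 / 2) ^ k := by
          have : (0 : ℝ) ≤ (1 / 2) ^ k := by positivity
          linarith
  set C : ℝ := ∑' k : ℕ, (catalan k : ℝ) * u ^ k with hC
  have hCs : HasSum (fun k : ℕ => (catalan k : ℝ) * u ^ k) C := hcs.of_norm.hasSum
  have hquad : C = 1 + u * C ^ 2 := by
    have h1 : HasSum (fun k : ℕ => (catalan (k + 1) : ℝ) * u ^ (k + 1)) (C - 1) := by
      have := (hasSum_nat_add_iff' 1).2 hCs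
      simpa using this
    have h2 : C * C = ∑' n : ℕ, ∑ p ∈ antidiagonal n,
        ((catalan p.1 : ℝ) * u ^ p.1) * ((catalan p.2 : ℝ) * u ^ p.2) := by
      rw [hC]
      exact tsum_mul_tsum_eq_tsum_sum_antidiagonal_of_summable_norm hcs hcs
    have h3 : ∀ n : ℕ, (catalan (n + 1) : ℝ) * u ^ (n + 1) = u * ∑ p ∈ antidiagonal n,
        ((catalan p.1 : ℝ) * u ^ p.1) * ((catalan p.2 : ℝ) * u ^ p.2) := by
      intro n
      rw [catalan_succ']
      push_cast
      rw [Finset.sum_mul, Finset.mul_sum]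
      refine Finset.sum_congr rfl fun p hp => ?_
      rw [HasAntidiagonal.mem_antidiagonal] at hp
      rw [← hp, pow_succ, pow_add]
      ring
    have h4 : C - 1 = u * (C * C) := by
      rw [← h1.tsum_eq, h2, ← tsum_mul_left]
      exact tsum_congr h3
    linear_combination h4
  set S : ℝ := 1 - 2 * u * C with hS
  have hSs : HasSum (fun k : ℕ => (ca true k : ℝ) * u ^ k) S := by
    rw [← hasSum_nat_add_iff' 1]
    have h1 : HasSum (fun k : ℕ => (-2 * u) * ((catalan k : ℝ) * u ^ k)) ((-2 * u) * C) :=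
      hCs.mul_left _
    have h2 : S - ∑ i ∈ range 1, (ca true i : ℝ) * u ^ i = (-2 * u) * C := by
      simp [ca, hS]
    rw [h2]
    refine h1.congr_fun ?_ |> fun h => h
    intro k
    rw [ccat, pow_succ]
    ring
  have hS2 : S ^ 2 = 1 - t := by
    have h4 : t = 4 * u := by rw [hu]; ring
    rw [hS, h4]
    have : (1 - 2 * u * C) ^ 2 = 1 - 4 * u * (C - u * C ^ 2) := by ring
    rw [this, show C - u * C ^ 2 = 1 by linarith [hquad]]
    ring
  have hSpos : 0 < S := by
    have h1 : |S - 1| ≤ 1 / 2 := by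
      have h2 : HasSum (fun k : ℕ => (ca true (k + 1) : ℝ) * u ^ (k + 1)) (S - 1) := by
        have := (hasSum_nat_add_iff' 1).2 hSs
        simpa [ca] using this
      rw [← h2.tsum_eq, ← Real.norm_eq_abs, ← hgeos]
      refine tsum_of_norm_bounded hgeo.hasSum fun k => ?_
      rw [norm_mul, norm_pow, Real.norm_eq_abs, Real.norm_eq_abs]
      exact hbd true k
    have := (abs_le.1 h1).1
    linarith
  have hSq : S = Real.sqrt (1 - t) := by
    rw [← hS2, Real.sqrt_sq hSpos.le]
  cases τ with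
  | true =>
    unfold rt
    rw [if_pos rfl, ← hSq]
    exact hSs
  | false =>
    unfold rt
    rw [if_neg (by simp), ← hSq]
    have hBn : Summable (fun k : ℕ => ‖(ca false k : ℝ) * u ^ k‖) := by
      rw [← summable_nat_add_iff 1]
      refine hgeo.of_nonneg_of_le (fun k => norm_nonneg _) (fun k => ?_)
      rw [norm_mul, norm_pow, Real.norm_eq_abs, Real.norm_eq_abs]
      exact hbd false k
    set B : ℝ := ∑' k : ℕ, (ca false k : ℝ) * u ^ k with hB
    have hBs : HasSum (fun k : ℕ => (ca false k : ℝ) * u ^ k) B := hBn.of_norm.hasSum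
    have h1 : HasSum (fun k : ℕ => (ca false (k + 1) : ℝ) * u ^ (k + 1)) (B - 1) := by
      have := (hasSum_nat_add_iff' 1).2 hBs
      simpa [ca] using this
    have h2 : HasSum (fun k : ℕ => (4 * u) * ((ca false k : ℝ) * u ^ k) -
        (2 * u) * ((catalan k : ℝ) * u ^ k)) ((4 * u) * B - (2 * u) * C) :=
      (hBs.mul_left _).sub (hCs.mul_left _)
    have h3 : (fun k : ℕ => (ca false (k + 1) : ℝ) * u ^ (k + 1)) = fun k : ℕ =>
        (4 * u) * ((ca false k : ℝ) * u ^ k) - (2 * u) * ((catalan k : ℝ) * u ^ k) := by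
      funext k
      have : ∀ k, (ca false k : ℝ) = Nat.centralBinom k := by
        intro k
        unfold ca
        simp
      rw [this, this, cb_rec, pow_succ]
      ring
    rw [h3] at h1
    have h4 := h1.unique h2
    have h5 : B * (1 - t) = S := by
      have ht4 : t = 4 * u := by rw [hu]; ring
      rw [hS, ht4]
      linear_combination h4
    have h6 : B = S⁻¹ := by
      rw [← hS2] at h5
      field_simp
      have : B * S * S = 1 * S := by
        rw [one_mul]
        linear_combination h5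
      exact mul_right_cancel₀ hSpos.ne' this
    rw [← h6]
    exact hBs

end Pool.Agent.H28.PL
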