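import Mathlib

/-!
Project PL (`MP_cd3997_nt`): primitive parts of the Pell numbers.  Definitions.
-/

set_option autoImplicit false

open Finset

namespace Pool.Agent.H28.PL

/-- Pell numbers -/
def pe : ℕ → ℕ
  | 0 => 0
  | 1 => 1
  | n + 2 => 2 * pe (n + 1) + pe n

/-- companion numbers -/
def ve : ℕ → ℕ
  | 0 => 2
  | 1 => 2
  | n + 2 => 2 * ve (n + 1) + ve n

/-- `L` is the primitive part of the Pell numbers -/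
def PP (L : ℕ → ℕ) : Prop := ∀ r, 0 < r → ∏ d ∈ r.divisors, L d = pe r

/-- `1 + √2` -/
noncomputable def al : ℝ := 1 + Real.sqrt 2

/-- `1 - √2` -/
noncomputable def be : ℝ := 1 - Real.sqrt 2

/-- the product `∏_{d ∣ m} u_{s d} ^ μ(m / d)` -/
noncomputable def TT (m s : ℕ) : ℝ :=
  ∏ d ∈ m.divisors, (pe (s * d) : ℝ) ^ (ArithmeticFunction.moebius (m / d) : ℤ)

/-- coefficients of `(1 - 4 t) ^ (1 / 2)` (`τ = true`) and `(1 - 4 t) ^ (- 1 / 2)` -/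
def ca (τ : Bool) (k : ℕ) : ℤ :=
  if τ then (if k = 0 then 1 else -2 * (catalan (k - 1) : ℤ)) else (Nat.centralBinom k : ℤ)

/-- coefficients of `(1 - (4 t) ^ d) ^ (± 1 / 2)` -/
def hs (τ : Bool) (d j : ℕ) : ℤ := if d ∣ j then ca τ (j / d) * 4 ^ (j - j / d) else 0

/-- the factor with the exponent `± 1 / 2` -/
noncomputable def rt (τ : Bool) (x : ℝ) : ℝ := if τ then Real.sqrt x else (Real.sqrt x)⁻¹

/-- the exponent of 2 in the central binomial coefficient -/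
def w (k : ℕ) : ℕ := padicValNat 2 (Nat.centralBinom k)

/-- the sequence `h` represents `F` at the point `t`, with norm at most `B` -/
def Ser (h : ℕ → ℤ) (t F B : ℝ) : Prop :=
  h 0 = 1 ∧ HasSum (fun j => (h j : ℝ) * (t / 4) ^ j) F ∧
    Summable (fun j => |(h j : ℝ)| / 8 ^ j) ∧ ∑' j, |(h j : ℝ)| / 8 ^ j ≤ B

/-- the integer `2 ^ N Q`, where `N = 2 K + e` -/
def WW (h : ℕ → ℤ) (s N : ℕ) : ℤ :=
  (∑ j ∈ (range (N + 1)).filter (fun j => 2 * j < N),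
    2 ^ (N - 2 * j) * h j * (-1) ^ (s * j) * (ve (s * (N - 2 * j)) : ℤ)) +
  if Even N then h (N / 2) * (-1) ^ (s * (N / 2)) else 0

/-! ### targets for `R` and `G` -/

/-- BIN -/
def T_BIN : Prop := ∀ n : ℕ, 2 * Real.sqrt 2 * (pe n : ℝ) = al ^ n - be ^ n ∧
  (ve n : ℝ) = al ^ n + be ^ n

/-- VEO -/
def T_VEO : Prop := ∀ n : ℕ, ∃ k : ℕ, ve n = 2 * (2 * k + 1)

/-- MOB -/
def T_MOB : Prop := ∀ L, PP L → ∀ m s : ℕ, Squarefree m → 0 < s →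
  (m * s).primeFactors = m.primeFactors → (L (m * s) : ℝ) = TT m s

/-- MOQ -/
def T_MOQ : Prop := ∀ L, PP L → ∀ m s q : ℕ, Squarefree m → 0 < s →
  (m * s).primeFactors = m.primeFactors → q.Prime → ¬ q ∣ m →
  (L (m * s * q) : ℝ) * L (m * s) = TT m (s * q)

/-- TFO -/
def T_TFO : Prop := ∀ m s : ℕ, Squarefree m → 1 < m → 0 < s →
  TT m s = (al ^ s) ^ Nat.totient m *
    ∏ d ∈ m.divisors, (1 - ((be / al) ^ s) ^ d) ^ (ArithmeticFunction.moebius (m / d) : ℤ)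

/-- WJ: 2-adic valuations of central binomial coefficients -/
def T_WJ : Prop := w 0 = 0 ∧ (∀ k, w (k + 1) ≤ w k + 1) ∧ (∀ k, 0 < k → 1 ≤ w k) ∧
  (∀ k, w k ≤ k) ∧ ∀ τ k, ∃ c : ℤ, Odd c ∧ ca τ k = 2 ^ w k * c

/-- CAT: the binomial series with the exponents `± 1 / 2` -/
def T_CAT : Prop := ∀ (τ : Bool) (t : ℝ), |t| ≤ 1 / 2 →
  HasSum (fun k => (ca τ k : ℝ) * (t / 4) ^ k) (rt τ (1 - t))

/-- CAB: bounds for the coefficients -/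
def T_CAB : Prop := ∀ (τ : Bool) (k : ℕ), 0 < k → 2 * |ca τ k| ≤ 4 ^ k

/-- HSS: the series of one factor -/
def T_HSS : Prop := ∀ (τ : Bool) (d : ℕ) (t : ℝ), 0 < d → |t| ≤ 1 / 2 →
  Ser (hs τ d) t (rt τ (1 - t ^ d)) (1 + (1 / 2) ^ d)

/-- HSD: divisibility -/
def T_HSD : Prop := ∀ (τ : Bool) (d j : ℕ), 2 ≤ d → 0 < j → (2 : ℤ) ^ (j + 1) ∣ hs τ d j

/-- CON: Cauchy products -/
def T_CON : Prop := ∀ (f g : ℕ → ℤ) (t F G A B : ℝ), |t| ≤ 1 / 2 → 0 ≤ A → 0 ≤ B →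
  Ser f t F A → Ser g t G B →
  Ser (fun j => ∑ p ∈ antidiagonal j, f p.1 * g p.2) t (F * G) (A * B)

/-- PRO: the product of the factors with `d ≥ 2` -/
def T_PRO : Prop := ∀ (S : Finset ℕ) (τ : ℕ → Bool) (t : ℝ), (∀ d ∈ S, 2 ≤ d) → |t| ≤ 1 / 2 →
  ∃ E : ℕ → ℤ, (∀ j, 0 < j → (2 : ℤ) ^ (j + 1) ∣ E j) ∧
    Ser E t (∏ d ∈ S, rt (τ d) (1 - t ^ d)) (∏ d ∈ S, (1 + (1 / 2 : ℝ) ^ d))

/-- VAL: valuations of the coefficients of the product -/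
def T_VAL : Prop := ∀ (τ : Bool) (E : ℕ → ℤ), E 0 = 1 →
  (∀ j, 0 < j → (2 : ℤ) ^ (j + 1) ∣ E j) → ∀ j, ∃ c : ℤ, Odd c ∧
    ∑ p ∈ antidiagonal j, ca τ p.1 * E p.2 = 2 ^ w j * c

/-- SQR: the square root of `TT m s` as a power series in `(be / al) ^ s` -/
def T_SQR : Prop := ∀ m s : ℕ, Squarefree m → 2 < m → 0 < s → ∃ (h : ℕ → ℤ) (F : ℝ),
  (∀ j, ∃ c : ℤ, Odd c ∧ h j = 2 ^ w j * c) ∧ Ser h ((be / al) ^ s) F 3 ∧ 0 < F ∧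
  Real.sqrt (TT m s) = (al ^ s) ^ (Nat.totient m / 2) * F

/-- WEV: the 2-adic valuation of `WW`, `N` even -/
def T_WEV : Prop := ∀ (h : ℕ → ℤ) (s K : ℕ), (∀ j, ∃ c : ℤ, Odd c ∧ h j = 2 ^ w j * c) →
  ∃ c : ℤ, Odd c ∧ WW h s (2 * K) = 2 ^ w K * c

/-- WOD: the 2-adic valuation of `WW`, `N` odd -/
def T_WOD : Prop := ∀ (h : ℕ → ℤ) (s K : ℕ), (∀ j, ∃ c : ℤ, Odd c ∧ h j = 2 ^ w j * c) →
  ∃ c : ℤ, Odd c ∧ WW h s (2 * K + 1) = 2 ^ (w K + 2) * c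

/-- APE: the approximation, `N` even -/
def T_APE : Prop := ∀ (h : ℕ → ℤ) (s K : ℕ) (F B : ℝ), 0 < s →
  Ser h ((be / al) ^ s) F B →
  |2 ^ (2 * K) * ((al ^ s) ^ (2 * K) * F) - (WW h s (2 * K) : ℝ)| ≤
    B * 2 ^ (3 * K + 1) / (al ^ s) ^ 2

/-- APO: the approximation, `N` odd -/
def T_APO : Prop := ∀ (h : ℕ → ℤ) (s K : ℕ) (F B : ℝ), 0 < s →
  Ser h ((be / al) ^ s) F B →
  |2 ^ (2 * K + 1) * ((al ^ s) ^ (2 * K + 1) * F) - (WW h s (2 * K + 1) : ℝ)| ≤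
    B * 2 ^ (3 * K + 2) / al ^ s

/-- AEV: Theorem A, `φ(m) / 2` even -/
def T_AEV : Prop := ∀ m s K z : ℕ, Squarefree m → Nat.totient m = 4 * K → 0 < K → 2 * K ≤ s →
  TT m s ≠ (z : ℝ) ^ 2

/-- AOD: Theorem A, `φ(m) / 2` odd and at least 5 -/
def T_AOD : Prop := ∀ m s K z : ℕ, Squarefree m → Nat.totient m = 4 * K + 2 → 2 ≤ K →
  4 * K + 2 ≤ s → TT m s ≠ (z : ℝ) ^ 2

/-- A36: `m = 3, 6` -/
def T_A36 : Prop := ∀ s z : ℕ, 0 < s → TT 3 s ≠ (z : ℝ) ^ 2 ∧ TT 6 s ≠ (z : ℝ) ^ 2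

/-- A714: `m = 7, 14` -/
def T_A714 : Prop := ∀ s z : ℕ, 1 < s → TT 7 s ≠ (z : ℝ) ^ 2 ∧ TT 14 s ≠ (z : ℝ) ^ 2

/-- A2: `m = 2` -/
def T_A2 : Prop := ∀ s z : ℕ, 0 < s → TT 2 s ≠ (z : ℝ) ^ 2

/-- FIN6: small totients -/
def T_PHI : Prop := ∀ m : ℕ, Squarefree m → 1 < m → m = 2 ∨ m = 3 ∨ m = 6 ∨ m = 7 ∨ m = 14 ∨
  (∃ K, 0 < K ∧ Nat.totient m = 4 * K) ∨
  (∃ p K, p.Prime ∧ p = 4 * K + 3 ∧ 2 ≤ K ∧ (m = p ∨ m = 2 * p))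

/-- Theorem R -/
def T_R : Prop := ∀ L, PP L → ∀ r : ℕ, 1 < r → (∏ p ∈ r.primeFactors, p) ^ 2 ≤ 2 * r →
  ¬ IsSquare (L r)

/-- Theorem G -/
def T_G : Prop := ∀ L, PP L → ∀ m q : ℕ, 1 < m → q.Prime → (m ≤ q ∨ m = 7 ∨ m = 30) →
  IsSquare (L m) → ¬ IsSquare (L (m * q))

end Pool.Agent.H28.PL
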