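import Pool.Agent.H28.PL.Defs

/-!
Project PL (`MP_cd3997_nt`): reciprocity for primitive parts.  Targets.
-/

set_option autoImplicit false

open Finset

namespace Pool.Agent.H28.PL

/-- `∏_{d ∣ n} L (2 ^ c d)` for odd `n` -/
def AA (c n : ℕ) : ℕ := if c = 0 then pe n else ve (2 ^ (c - 1) * n)

/-- the properties used in Euclid's algorithm -/
def Euc (B : ℕ → ℕ) : Prop := B 1 = 1 ∧ (∀ k, Odd k → B k % 4 = 1) ∧
  (∀ b k, Odd b → Odd k → (B b : ℤ) ∣ B (k + 2 * b) - B k ∨ (B b : ℤ) ∣ B (k + 2 * b) + B k) ∧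
  ∀ b k, Odd b → Odd k → k < 2 * b → (B b : ℤ) ∣ B (2 * b - k) - B k ∨
    (B b : ℤ) ∣ B (2 * b - k) + B k

/-- EUC -/
def T_EUC : Prop := ∀ B, Euc B → ∀ a b : ℕ, Odd a → Odd b → Nat.Coprime a b →
  jacobiSym (B a) (B b) = 1

/-- ADV: divisibility -/
def T_ADV : Prop := ∀ c g k : ℕ, Odd g → Odd k → AA c g ∣ AA c (g * k)

/-- JRU: the ratio sequences, `c = 0` -/
def T_JRU : Prop := ∀ g : ℕ, Odd g → Euc (fun k => AA 0 (g * k) / AA 0 g)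

/-- JRV: the ratio sequences, `c ≥ 2` -/
def T_JRV : Prop := ∀ c g : ℕ, 2 ≤ c → Odd g → Euc (fun k => AA c (g * k) / AA c g)

/-- JP: the product over the divisors -/
def T_JP : Prop := ∀ L, PP L → ∀ c n : ℕ, Odd n → ∏ d ∈ n.divisors, L (2 ^ c * d) = AA c n

/-- JL: residues modulo 4 -/
def T_JL : Prop := ∀ L, PP L → ∀ c m : ℕ, c ≠ 1 → Odd m → 1 < m → L (2 ^ c * m) % 4 = 1

/-- JI: incomparable indices -/
def T_JI : Prop := ∀ L, PP L → ∀ c n m : ℕ, c ≠ 1 → Odd n → Odd m → ¬ n ∣ m → ¬ m ∣ n →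
  jacobiSym (L (2 ^ c * n)) (L (2 ^ c * m)) = 1

/-- JK: the ratio modulo `AA c m` -/
def T_JK : Prop := ∀ c m k : ℕ, Odd m → Odd k →
  (AA c m : ℤ) ∣ AA c (m * k) / AA c m - k ∨ (AA c m : ℤ) ∣ AA c (m * k) / AA c m + k

/-- JQ: comparable indices -/
def T_JQ : Prop := ∀ L, PP L → ∀ c m q a : ℕ, c ≠ 1 → Odd m → 1 < m → q.Prime → Odd q → 0 < a →
  jacobiSym q (L (2 ^ c * m)) ≠ 0 →
  jacobiSym (L (2 ^ c * (m * q ^ a))) (L (2 ^ c * m)) = jacobiSym q (L (2 ^ c * m))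

/-- Theorem J -/
def T_J : Prop := ∀ L, PP L → ∀ c m q a : ℕ, c ≠ 1 → Odd m → 1 < m → q.Prime → Odd q → 0 < a →
  jacobiSym q (L (2 ^ c * m)) = -1 → ¬ IsSquare (L (2 ^ c * (m * q ^ a)))

end Pool.Agent.H28.PL
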