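import Pool.Agent.H28.PL.DefsJ

/-!
Project PL (`MP_cd3997_nt`): reciprocity, indices `2 m`, `m` odd.  Targets.
-/

set_option autoImplicit false

open Finset

namespace Pool.Agent.H28.PL

open Classical in
/-- `exp Λ(n)` -/
noncomputable def PD (n : ℕ) : ℕ := if IsPrimePow n then n.minFac else 1

/-- the properties used in Euclid's algorithm, odd type -/
def Euc1 (B : ℕ → ℕ) : Prop := B 1 = 1 ∧ (∀ k, Odd k → B k % 4 = k % 4) ∧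
  (∀ b k, Odd b → Odd k → (B b : ℤ) ∣ B (k + 2 * b) - B k) ∧
  ∀ b k, Odd b → Odd k → k < 2 * b → (B b : ℤ) ∣ B (2 * b - k) + B k

/-- PPD -/
def T_PPD : Prop := ∀ n : ℕ, 0 < n → ∏ d ∈ n.divisors, PD d = n

/-- EU1 -/
def T_EU1 : Prop := ∀ B, Euc1 B → ∀ a b : ℕ, Odd a → Odd b → Nat.Coprime a b →
  jacobiSym (B a) (B b) = jacobiSym a b

/-- JR1 -/
def T_JR1 : Prop := ∀ g : ℕ, Odd g → Euc1 (fun k => AA 1 (g * k) / AA 1 g)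

/-- JL1 -/
def T_JL1 : Prop := ∀ L, PP L → ∀ m : ℕ, Odd m → 1 < m → L (2 * m) % 4 = PD m % 4

/-- JI1 -/
def T_JI1 : Prop := ∀ L, PP L → ∀ n m : ℕ, Odd n → Odd m → ¬ n ∣ m → ¬ m ∣ n →
  jacobiSym (L (2 * n)) (L (2 * m)) = jacobiSym (PD n) (PD m)

/-- JQ1 -/
def T_JQ1 : Prop := ∀ L, PP L → ∀ m q a : ℕ, Odd m → 1 < m → ¬ IsPrimePow m → q.Prime → Odd q →
  0 < a → jacobiSym q (L (2 * m)) ≠ 0 →
  jacobiSym (L (2 * (m * q ^ a))) (L (2 * m)) = jacobiSym q (L (2 * m))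

/-- Theorem J, final form -/
def T_JJ : Prop := ∀ L, PP L → ∀ m q a : ℕ, 0 < m → (∀ c, m ≠ 2 ^ c) →
  (∀ p i, p.Prime → m ≠ 2 * p ^ i) → q.Prime → Odd q → 0 < a →
  jacobiSym q (L m) = -1 → ¬ IsSquare (L (m * q ^ a))

end Pool.Agent.H28.PL
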