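import Pool.Agent.H28.PL.Defs

/-!
Project PL (`MP_cd3997_nt`): Theorems R and G from the targets.
-/

set_option autoImplicit false

open Finset

namespace Pool.Agent.H28.PL

/-- the conditions on `m` and `s` under which `TT m s` is not a square -/
theorem nsq (h2 : T_A2) (h36 : T_A36) (h7 : T_A714) (he : T_AEV) (ho : T_AOD) (hp : T_PHI)
    (m s z : ℕ) (hm : Squarefree m) (h1 : 1 < m) (hs : 0 < s)
    (hs7 : m = 7 ∨ m = 14 → 1 < s) (hse : 4 ∣ Nat.totient m → Nat.totient m ≤ 2 * s)
    (hso : ∀ p : ℕ, p.Prime → p % 4 = 3 → m = p ∨ m = 2 * p → p ≤ s + 1 ∨ p ≤ 7) :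
    TT m s ≠ (z : ℝ) ^ 2 := by
  rcases hp m hm h1 with h | h | h | h | h | ⟨K, hK, h⟩ | ⟨p, K, pp, hpK, hK, h⟩
  · subst h; exact h2 s z hs
  · subst h; exact (h36 s z hs).1
  · subst h; exact (h36 s z hs).2
  · subst h; exact (h7 s z (hs7 (Or.inl rfl))).1
  · subst h; exact (h7 s z (hs7 (Or.inr rfl))).2
  · refine he m s K z hm h hK ?_
    have := hse ⟨K, h⟩
    omega
  · have ht : Nat.totient m = 4 * K + 2 := by
      rcases h with h | h
      · rw [h, Nat.totient_prime pp]; omega
      · have hodd : Nat.Coprime 2 p := by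
          rw [Nat.coprime_comm, Nat.Prime.coprime_iff_not_dvd pp]
          intro hd
          have := Nat.le_of_dvd (by norm_num) hd
          omega
        rw [h, Nat.totient_mul hodd, Nat.totient_prime pp, Nat.totient_prime Nat.prime_two]
        omega
    refine ho m s K z hm ht hK ?_
    rcases hso p pp (by omega) h with h' | h' <;> omega

theorem rad_sqf (r : ℕ) : Squarefree (∏ p ∈ r.primeFactors, p) := by
  refine Finset.squarefree_prod_of_pairwise_isCoprime (fun a ha b hb hab => ?_)
    fun a ha => (Nat.prime_of_mem_primeFactors ha).squarefree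
  simp only [← Nat.coprime_iff_isRelPrime]
  exact (Nat.coprime_primes (Nat.prime_of_mem_primeFactors ha)
    (Nat.prime_of_mem_primeFactors hb)).mpr hab

theorem rad_facts (r : ℕ) (hr : 1 < r) : ∃ m s : ℕ, m = ∏ p ∈ r.primeFactors, p ∧ r = m * s ∧
    Squarefree m ∧ 1 < m ∧ 0 < s ∧ (m * s).primeFactors = m.primeFactors := by
  have hd : (∏ p ∈ r.primeFactors, p) ∣ r := Nat.prod_primeFactors_dvd r
  obtain ⟨s, hs⟩ := hd
  have hpf : (∏ p ∈ r.primeFactors, p).primeFactors = r.primeFactors :=
    Nat.primeFactors_prod (fun p hp => Nat.prime_of_mem_primeFactors hp)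
  refine ⟨_, s, rfl, hs, rad_sqf r, ?_, ?_, ?_⟩
  · obtain ⟨p, pp, hp⟩ := Nat.exists_prime_and_dvd (show r ≠ 1 by omega)
    have hmem : p ∈ r.primeFactors := Nat.mem_primeFactors.2 ⟨pp, hp, by omega⟩
    have h1 : p ∣ ∏ p ∈ r.primeFactors, p := Finset.dvd_prod_of_mem _ hmem
    have h2 : 0 < ∏ p ∈ r.primeFactors, p :=
      Finset.prod_pos fun q hq => (Nat.prime_of_mem_primeFactors hq).pos
    have := Nat.le_of_dvd h2 h1
    have := pp.two_le
    omega
  · rcases Nat.eq_zero_or_pos s with h | h
    · rw [h, mul_zero] at hs; omega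
    · exact h
  · rw [hpf, ← hs]

/-- a prime number which divides `m s` divides `m` -/
theorem dvd_of_pf (m s p : ℕ) (h0 : 0 < m * s) (h : (m * s).primeFactors = m.primeFactors)
    (pp : p.Prime) (hp : p ∣ s) : p ∣ m := by
  have : p ∈ (m * s).primeFactors :=
    Nat.mem_primeFactors.2 ⟨pp, Dvd.dvd.mul_left hp m, by omega⟩
  rw [h] at this
  exact Nat.dvd_of_mem_primeFactors this

theorem R_of (hM : T_MOB) (h2 : T_A2) (h36 : T_A36) (h7 : T_A714) (he : T_AEV) (ho : T_AOD)
    (hp : T_PHI) : T_R := by
  intro L hL r hr hrad hsq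
  obtain ⟨m, s, hm, hrm, hmsq, hm1, hs, hpf⟩ := rad_facts r hr
  rw [← hm, hrm] at hrad
  have hms : m ≤ 2 * s := by
    have h0 : 0 < m := by omega
    have : m * m ≤ m * (2 * s) := by
      calc m * m = m ^ 2 := by ring
        _ ≤ 2 * (m * s) := hrad
        _ = m * (2 * s) := by ring
    exact Nat.le_of_mul_le_mul_left this h0
  obtain ⟨z, hz⟩ := hsq
  have hT : TT m s = (z : ℝ) ^ 2 := by
    rw [← hM L hL m s hmsq hs hpf, ← hrm, hz]
    push_cast
    ring
  refine nsq h2 h36 h7 he ho hp m s z hmsq hm1 hs ?_ ?_ ?_ hT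
  · rintro (h | h) <;> omega
  · intro _
    have := Nat.totient_lt m hm1
    omega
  · intro p pp hp4 hmp
    left
    have hp3 : 3 ≤ p := by
      have := pp.two_le
      omega
    rcases hmp with hmp | hmp
    · have hs1 : s ≠ 1 := by omega
      obtain ⟨q, qp, hq⟩ := Nat.exists_prime_and_dvd hs1
      have hqm := dvd_of_pf m s q (Nat.mul_pos (by omega) hs) hpf qp hq
      rw [hmp, Nat.prime_dvd_prime_iff_eq qp pp] at hqm
      rw [hqm] at hq
      have := Nat.le_of_dvd hs hq
      omega
    · omega

theorem sqz (z : ℕ) (a b : ℕ) (h1 : a ^ 2 < z) (h2 : z < b ^ 2) (hab : b = a + 1) :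
    ¬ IsSquare z := by
  rintro ⟨c, hc⟩
  subst hab
  have h3 : a < c := by
    by_contra h
    push Not at h
    have : c * c ≤ a * a := Nat.mul_le_mul h h
    nlinarith
  have h4 : c < a + 1 := by
    by_contra h
    push Not at h
    have : (a + 1) * (a + 1) ≤ c * c := Nat.mul_le_mul h h
    nlinarith
  omega

/-- fast evaluation of Pell numbers -/
def fp (n : ℕ) : ℕ × ℕ := Nat.rec (0, 1) (fun _ q => (q.2, 2 * q.2 + q.1)) n

theorem pe_fp (n : ℕ) : pe n = (fp n).1 ∧ pe (n + 1) = (fp n).2 := by
  induction n with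
  | zero => exact ⟨rfl, rfl⟩
  | succ n ih =>
    refine ⟨ih.2, ?_⟩
    show 2 * pe (n + 1) + pe n = 2 * (fp n).2 + (fp n).1
    rw [ih.1, ih.2]

theorem d30 : (30 : ℕ).divisors = {1, 2, 3, 5, 6, 10, 15, 30} := by decide

theorem mu30 : ArithmeticFunction.moebius 30 = -1 ∧ ArithmeticFunction.moebius 15 = 1 ∧
    ArithmeticFunction.moebius 10 = 1 ∧ ArithmeticFunction.moebius 6 = 1 ∧
    ArithmeticFunction.moebius 5 = -1 ∧ ArithmeticFunction.moebius 3 = -1 ∧
    ArithmeticFunction.moebius 2 = -1 ∧ ArithmeticFunction.moebius 1 = 1 := by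
  have h2 := ArithmeticFunction.moebius_apply_prime Nat.prime_two
  have h3 := ArithmeticFunction.moebius_apply_prime Nat.prime_three
  have h5 := ArithmeticFunction.moebius_apply_prime Nat.prime_five
  have m := ArithmeticFunction.isMultiplicative_moebius
  have h6 : ArithmeticFunction.moebius 6 = 1 := by
    have := m.map_mul_of_coprime (show Nat.Coprime 2 3 by norm_num)
    rw [h2, h3] at this
    simpa using this
  have h10 : ArithmeticFunction.moebius 10 = 1 := by
    have := m.map_mul_of_coprime (show Nat.Coprime 2 5 by norm_num)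
    rw [h2, h5] at this
    simpa using this
  have h15 : ArithmeticFunction.moebius 15 = 1 := by
    have := m.map_mul_of_coprime (show Nat.Coprime 3 5 by norm_num)
    rw [h3, h5] at this
    simpa using this
  have h30 : ArithmeticFunction.moebius 30 = -1 := by
    have := m.map_mul_of_coprime (show Nat.Coprime 6 5 by norm_num)
    rw [h6, h5] at this
    simpa using this
  exact ⟨h30, h15, h10, h6, h5, h3, h2, ArithmeticFunction.moebius_apply_one⟩

theorem TT30 (s : ℕ) : TT 30 s = (pe s : ℝ)⁻¹ * pe (s * 2) * pe (s * 3) * pe (s * 5) *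
    (pe (s * 6) : ℝ)⁻¹ * (pe (s * 10) : ℝ)⁻¹ * (pe (s * 15) : ℝ)⁻¹ * pe (s * 30) := by
  obtain ⟨a, b, c, d, e, f, g, h⟩ := mu30
  unfold TT
  rw [d30]
  rw [Finset.prod_insert (by decide), Finset.prod_insert (by decide),
    Finset.prod_insert (by decide), Finset.prod_insert (by decide),
    Finset.prod_insert (by decide), Finset.prod_insert (by decide),
    Finset.prod_insert (by decide), Finset.prod_singleton]
  norm_num [a, b, c, d, e, f, g, h]
  ring

theorem TT302 : TT 30 2 = 1370881 := by
  rw [TT30]
  norm_num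
  have h : ∀ n v : ℕ, (fp n).1 = v → pe n = v := fun n v hv => (pe_fp n).1.trans hv
  rw [h 2 2 (by decide), h 4 12 (by decide), h 6 70 (by decide), h 10 2378 (by decide),
    h 12 13860 (by decide), h 20 15994428 (by decide), h 30 107578520350 (by decide),
    h 60 32733777552734744709300 (by decide)]
  norm_num

theorem TT303 : TT 30 3 = 1529035201 := by
  rw [TT30]
  norm_num
  have h : ∀ n v : ℕ, (fp n).1 = v → pe n = v := fun n v hv => (pe_fp n).1.trans hv
  rw [h 3 5 (by decide), h 6 70 (by decide), h 9 985 (by decide), h 15 195025 (by decide),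
    h 18 2744210 (by decide), h 30 107578520350 (by decide),
    h 45 59341817924539925 (by decide),
    h 90 9960168529794442859224531878561050 (by decide)]
  norm_num

theorem L3060 (hM : T_MOB) (L : ℕ → ℕ) (hL : PP L) : ¬ IsSquare (L 60) ∧ ¬ IsSquare (L 90) := by
  have h30 : (30 : ℕ).primeFactors = {2, 3, 5} := by
    rw [show (30 : ℕ) = 2 * 3 * 5 by norm_num]
    rw [Nat.primeFactors_mul (by norm_num) (by norm_num),
      Nat.primeFactors_mul (by norm_num) (by norm_num), Nat.Prime.primeFactors Nat.prime_two,
      Nat.Prime.primeFactors Nat.prime_three, Nat.Prime.primeFactors Nat.prime_five]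
    decide
  have hsq : Squarefree 30 := by
    have := rad_sqf 30
    rw [h30] at this
    simpa using this
  have e60 : (30 * 2).primeFactors = (30 : ℕ).primeFactors := by
    rw [Nat.primeFactors_mul (by norm_num) (by norm_num), Nat.Prime.primeFactors Nat.prime_two,
      h30]
    decide
  have e90 : (30 * 3).primeFactors = (30 : ℕ).primeFactors := by
    rw [Nat.primeFactors_mul (by norm_num) (by norm_num), Nat.Prime.primeFactors Nat.prime_three,
      h30]
    decide
  have h1 := hM L hL 30 2 hsq (by norm_num) e60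
  have h2 := hM L hL 30 3 hsq (by norm_num) e90
  rw [TT302] at h1
  rw [TT303] at h2
  have h1' : L 60 = 1370881 := by exact_mod_cast h1
  have h2' : L 90 = 1529035201 := by exact_mod_cast h2
  rw [h1', h2']
  exact ⟨sqz _ 1170 1171 (by norm_num) (by norm_num) rfl,
    sqz _ 39102 39103 (by norm_num) (by norm_num) rfl⟩

theorem G_of (hM : T_MOB) (hQ : T_MOQ) (h2 : T_A2) (h36 : T_A36) (h7 : T_A714) (he : T_AEV)
    (ho : T_AOD) (hp : T_PHI) : T_G := by
  intro L hL m q hm hq hmq hLm hLq
  obtain ⟨a, s, ha, hms, hasq, ha1, hs, hpf⟩ := rad_facts m hm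
  have hq2 := hq.two_le
  have ham : a ≤ m := by
    rw [hms]
    exact Nat.le_mul_of_pos_right a hs
  have hpf7 : (7 : ℕ).primeFactors = {7} := Nat.Prime.primeFactors (by norm_num)
  have hpf30 : (30 : ℕ).primeFactors = {2, 3, 5} := by
    rw [show (30 : ℕ) = 2 * 3 * 5 by norm_num]
    rw [Nat.primeFactors_mul (by norm_num) (by norm_num),
      Nat.primeFactors_mul (by norm_num) (by norm_num), Nat.Prime.primeFactors Nat.prime_two,
      Nat.Prime.primeFactors Nat.prime_three, Nat.Prime.primeFactors Nat.prime_five]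
    decide
  have ha7 : m = 7 → a = 7 := by
    intro h
    rw [ha, h, hpf7]
    simp
  have ha30 : m = 30 → a = 30 := by
    intro h
    rw [ha, h, hpf30]
    decide
  have hlow := Nat.totient_lt a ha1
  have t30 : Nat.totient 30 = 8 := by decide
  have t7 : Nat.totient 7 = 6 := by decide
  by_cases hqa : q ∣ a
  · -- `q` divides `m`
    have hpf' : (a * (s * q)).primeFactors = a.primeFactors := by
      rw [← mul_assoc, Nat.primeFactors_mul (Nat.mul_pos (by omega) hs).ne' (by omega), hpf,
        Nat.Prime.primeFactors hq]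
      ext x
      simp only [Finset.mem_union, Finset.mem_singleton]
      constructor
      · rintro (h | h)
        · exact h
        · subst h
          exact Nat.mem_primeFactors.2 ⟨hq, hqa, by omega⟩
      · exact Or.inl
    obtain ⟨z, hz⟩ := hLq
    have hT : TT a (s * q) = (z : ℝ) ^ 2 := by
      rw [← hM L hL a (s * q) hasq (Nat.mul_pos hs (by omega)) hpf', ← mul_assoc, ← hms, hz]
      push_cast
      ring
    have hqle : q ≤ a := Nat.le_of_dvd (by omega) hqa
    have hsq' : q ≤ s * q := Nat.le_mul_of_pos_left q hs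
    by_cases hm30 : m = 30
    · have ha' := ha30 hm30
      have hs1 : s = 1 := by
        rw [ha', hm30] at hms
        omega
      have h235 : q = 2 ∨ q = 3 ∨ q = 5 := by
        have : q ∈ (30 : ℕ).primeFactors :=
          Nat.mem_primeFactors.2 ⟨hq, ha' ▸ hqa, by norm_num⟩
        rw [hpf30] at this
        simpa using this
      have hL' := L3060 hM L hL
      rcases h235 with h | h | h
      · apply hL'.1
        have : m * q = 60 := by rw [hm30, h]
        rw [← this]
        exact ⟨z, hz⟩
      · apply hL'.2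
        have : m * q = 90 := by rw [hm30, h]
        rw [← this]
        exact ⟨z, hz⟩
      · refine nsq h2 h36 h7 he ho hp a (s * q) z hasq ha1 (Nat.mul_pos hs (by omega)) ?_ ?_ ?_ hT
        · intro _; omega
        · intro _
          rw [ha', t30, hs1, h]
          norm_num
        · intro p pp hp4 hap
          rw [ha'] at hap
          rcases hap with hap | hap
          · exfalso
            rw [← hap] at hp4
            omega
          · exfalso
            have : p = 15 := by omega
            rw [this] at pp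
            norm_num at pp
    · have hqm : m ≤ q := by
        rcases hmq with h | h | h
        · exact h
        · have h' := ha7 h
          rw [h'] at hqa
          have := (Nat.prime_dvd_prime_iff_eq hq (by norm_num : Nat.Prime 7)).1 hqa
          omega
        · exact absurd h hm30
      refine nsq h2 h36 h7 he ho hp a (s * q) z hasq ha1 (Nat.mul_pos hs (by omega)) ?_ ?_ ?_ hT
      · intro _; omega
      · intro _; omega
      · intro p pp hp4 hap
        left
        rcases hap with hap | hap <;> omega
  · -- `q` does not divide `m`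
    obtain ⟨z, hz⟩ := hLq
    obtain ⟨y, hy⟩ := hLm
    have hT : TT a (s * q) = ((z * y : ℕ) : ℝ) ^ 2 := by
      rw [← hQ L hL a s q hasq hs hpf hq hqa, ← hms, hz, hy]
      push_cast
      ring
    have hsq' : q ≤ s * q := Nat.le_mul_of_pos_left q hs
    refine nsq h2 h36 h7 he ho hp a (s * q) (z * y) hasq ha1 (Nat.mul_pos hs (by omega)) ?_ ?_ ?_
      hT
    · intro _; omega
    · intro h4
      rcases hmq with h | h | h
      · omega
      · rw [ha7 h, t7] at h4
        omega
      · rw [ha30 h] at hqa ⊢
        rw [t30]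
        have : 4 ≤ q := by
          by_contra hlt
          push Not at hlt
          interval_cases q
          · exact hqa (by norm_num)
          · exact hqa (by norm_num)
        omega
    · intro p pp hp4 hap
      rcases hmq with h | h | h
      · left
        rcases hap with hap | hap <;> omega
      · right
        have := ha7 h
        rcases hap with hap | hap <;> omega
      · exfalso
        have ha' := ha30 h
        rw [ha'] at hap
        rcases hap with hap | hap
        · rw [← hap] at hp4
          omega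
        · have : p = 15 := by omega
          rw [this] at pp
          norm_num at pp

theorem pe1 : pe 1 = 1 := rfl

theorem TT301 : TT 30 1 = 961 := by
  rw [TT30]
  norm_num
  have h : ∀ n v : ℕ, (fp n).1 = v → pe n = v := fun n v hv => (pe_fp n).1.trans hv
  rw [h 1 1 (by decide), h 2 2 (by decide), h 3 5 (by decide), h 5 29 (by decide),
    h 6 70 (by decide), h 10 2378 (by decide), h 15 195025 (by decide),
    h 30 107578520350 (by decide)]
  norm_num

/-- the two known squares -/
theorem known_sq (hM : T_MOB) (L : ℕ → ℕ) (hL : PP L) : IsSquare (L 7) ∧ IsSquare (L 30) := by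
  constructor
  · have h7 := hL 7 (by norm_num)
    have h1 := hL 1 (by norm_num)
    rw [Nat.Prime.divisors (by norm_num : Nat.Prime 7), Finset.prod_pair (by norm_num)] at h7
    rw [Nat.divisors_one, Finset.prod_singleton] at h1
    have e7 : pe 7 = 169 := by decide
    rw [h1, e7, show pe 1 = 1 from rfl, one_mul] at h7
    rw [h7]
    exact ⟨13, rfl⟩
  · have hsq : Squarefree 30 := by
      have h30 : (30 : ℕ).primeFactors = {2, 3, 5} := by
        rw [show (30 : ℕ) = 2 * 3 * 5 by norm_num]
        rw [Nat.primeFactors_mul (by norm_num) (by norm_num),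
          Nat.primeFactors_mul (by norm_num) (by norm_num),
          Nat.Prime.primeFactors Nat.prime_two,
          Nat.Prime.primeFactors Nat.prime_three, Nat.Prime.primeFactors Nat.prime_five]
        decide
      have := rad_sqf 30
      rw [h30] at this
      simpa using this
    have h1 := hM L hL 30 1 hsq (by norm_num) rfl
    rw [TT301] at h1
    have h1' : L 30 = 961 := by exact_mod_cast h1
    rw [h1']
    exact ⟨31, rfl⟩

/-- Theorem G, final form -/
theorem GG_of (hM : T_MOB) (hG : T_G) (L : ℕ → ℕ) (hL : PP L) (m q : ℕ) (hq : q.Prime)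
    (h : m = 7 ∨ m = 30 ∨ (1 < m ∧ m ≤ q ∧ IsSquare (L m))) : ¬ IsSquare (L (m * q)) := by
  obtain ⟨h7, h30⟩ := known_sq hM L hL
  rcases h with h | h | ⟨h1, h2, h3⟩
  · exact hG L hL m q (by omega) hq (Or.inr (Or.inl h)) (h ▸ h7)
  · exact hG L hL m q (by omega) hq (Or.inr (Or.inr h)) (h ▸ h30)
  · exact hG L hL m q h1 hq (Or.inl h2) h3

end Pool.Agent.H28.PL
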