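import Pool.Agent.H28.PL.DefsK
import Pool.Agent.H28.PL.Easy

/-!
Project PL: Theorem J from the targets.
-/

set_option autoImplicit false

open Finset

namespace Pool.Agent.H28.PL

theorem JJ_of (hJ : T_J) (hQ : T_JQ1) : T_JJ := by
  intro L hL m q a hm hc hp hq hqo ha hj
  obtain ⟨c, n, hn, hmn⟩ := Nat.exists_eq_two_pow_mul_odd hm.ne'
  have hn1 : 1 < n := by
    rcases Nat.lt_or_ge 1 n with h | h
    · exact h
    · exfalso
      have : n = 1 := by
        have := hn.pos
        omega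
      rw [this, mul_one] at hmn
      exact hc c hmn
  by_cases h1 : c = 1
  · rw [h1, pow_one] at hmn
    have hpp : ¬ IsPrimePow n := by
      rw [isPrimePow_nat_iff]
      rintro ⟨p, i, pp, -, hpi⟩
      exact hp p i pp (by rw [hmn, hpi])
    rw [hmn] at hj ⊢
    rw [mul_assoc]
    intro hsq
    have := hQ L hL n q a hn hn1 hpp hq hqo ha (by rw [hj]; decide)
    rw [hj] at this
    obtain ⟨z, hz⟩ := hsq
    rw [hz] at this
    push_cast at this
    rw [jacobiSym.mul_left] at this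
    have h2 := mul_self_nonneg (jacobiSym (z : ℤ) (L (2 * n)))
    rw [this] at h2
    norm_num at h2
  · rw [hmn] at hj ⊢
    rw [mul_assoc]
    exact hJ L hL c n q a h1 hn hn1 hq hqo ha hj

/-- from the recursion to `pe` -/
theorem eq_pe (u : ℕ → ℕ) (h0 : u 0 = 0) (h1 : u 1 = 1)
    (h2 : ∀ r, u (r + 2) = 2 * u (r + 1) + u r) : ∀ n, u n = pe n := by
  have key : ∀ n, u n = pe n ∧ u (n + 1) = pe (n + 1) := by
    intro n
    induction n with
    | zero => exact ⟨h0, h1⟩
    | succ n ih =>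
      refine ⟨ih.2, ?_⟩
      rw [h2, ih.1, ih.2]
      rfl
  exact fun n => (key n).1

theorem pp_of (u L : ℕ → ℕ) (h0 : u 0 = 0) (h1 : u 1 = 1)
    (h2 : ∀ r, u (r + 2) = 2 * u (r + 1) + u r)
    (hL : ∀ r, 0 < r → ∏ d ∈ r.divisors, L d = u r) : PP L := by
  intro r hr
  rw [hL r hr, eq_pe u h0 h1 h2]

end Pool.Agent.H28.PL
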